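import Pool.Agent.Q168.SQ.Cont

/-!
# MP_7519fb_mp, Q1: the operational squeezing measure `G` is continuous

The phase space of `n` modes is `ℝ^(2n)`, with coordinates indexed by `Fin n × Fin 2` in the order
`(Q₁, P₁, …, Qₙ, Pₙ)`: the index `(i, 0)` is the position and `(i, 1)` the momentum of mode `i`.
-/

set_option autoImplicit false

namespace Pool.Agent.Results.MP_7519fb_mp.Continuity

open Matrix
open scoped ComplexOrder

/-- indices of the phase space coordinates of `n` modes -/
abbrev Idx (n : ℕ) : Type := Fin n × Fin 2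

/-- the symplectic form `σ_n`, the direct sum of `n` blocks `[[0, 1], [-1, 0]]` -/
def sigma (n : ℕ) : Matrix (Idx n) (Idx n) ℝ :=
  fun a b => if a.1 = b.1 then (!![0, 1; -1, 0] : Matrix (Fin 2) (Fin 2) ℝ) a.2 b.2 else 0

/-- membership in the real symplectic group `Sp(2n)`: `Sᵀ σ_n S = σ_n` -/
def IsSymplectic {n : ℕ} (S : Matrix (Idx n) (Idx n) ℝ) : Prop := Sᵀ * sigma n * S = sigma n

/-- covariance matrices: real symmetric `γ` such that the complex Hermitian matrix `γ - i σ_n` is
positive semidefinite -/
def IsCovariance {n : ℕ} (γ : Matrix (Idx n) (Idx n) ℝ) : Prop :=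
  γᵀ = γ ∧ (γ.map (fun x : ℝ => (x : ℂ)) -
    Complex.I • (sigma n).map (fun x : ℝ => (x : ℂ))).PosSemidef

/-- the numbers over which the infimum in the definition of `G` is taken: `∑_{i=1}^n log s_i(S)`, where
`S ∈ Sp(2n)`, `γ ≥ Sᵀ S`, and `s_1(S) ≥ s_2(S) ≥ …` are the singular values of `S` (those of the
linear operator of the Euclidean space `ℝ^(2n)` with matrix `S`; Mathlib numbers them from `0`) -/
def costs {n : ℕ} (γ : Matrix (Idx n) (Idx n) ℝ) : Set ℝ :=
  {x : ℝ | ∃ S : Matrix (Idx n) (Idx n) ℝ, IsSymplectic S ∧ (γ - Sᵀ * S).PosSemidef ∧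
    x = ∑ i ∈ Finset.range n, Real.log ((toEuclideanLin S).singularValues i)}

/-- the operational squeezing measure `G` -/
noncomputable def G {n : ℕ} (γ : Matrix (Idx n) (Idx n) ℝ) : ℝ := sInf (costs γ)

theorem sigma_form (n : ℕ) : Pool.Agent.Q168.SQ.Form (sigma n) := by
  constructor
  · ext ⟨i, s⟩ ⟨j, t⟩
    simp only [transpose_apply, Matrix.neg_apply, sigma]
    by_cases h : i = j
    · subst h
      fin_cases s <;> fin_cases t <;> simp
    · rw [if_neg h, if_neg (Ne.symm h), neg_zero]
  · ext ⟨i, s⟩ ⟨j, t⟩
    rw [mul_apply, Fintype.sum_prod_type]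
    simp only [sigma, ite_mul, zero_mul, mul_ite, mul_zero, Fin.sum_univ_two]
    by_cases h : i = j
    · subst h
      rw [Finset.sum_eq_single i]
      · fin_cases s <;> fin_cases t <;> simp
      · intro b _ hb
        simp [hb]
      · simp
    · rw [Finset.sum_eq_zero]
      · simp [h]
      · intro b _
        by_cases hb : i = b
        · subst hb
          simp [h]
        · simp [hb]

/-- **Q1 of MP_7519fb_mp: yes.**  For every `n` the function `G` is continuous on the set `C_n` of all
covariance matrices (with the usual topology of `ℝ^(2n × 2n)`), boundary points included: `G` is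
continuous at every point of `C_n` along `C_n`.  For completeness the statement also records that
`G γ` is the infimum of the set `costs γ` in the strict sense (greatest lower bound) for every
covariance matrix `γ`. -/
theorem result (n : ℕ) :
    ContinuousOn (G : Matrix (Idx n) (Idx n) ℝ → ℝ) {γ | IsCovariance γ} ∧
    ∀ γ : Matrix (Idx n) (Idx n) ℝ, IsCovariance γ → IsGLB (costs γ) (G γ) := by
  have hcard : Fintype.card (Idx n) = n + n := by
    rw [Fintype.card_prod, Fintype.card_fin, Fintype.card_fin]
    ring
  exact ⟨Pool.Agent.Q168.SQ.cont_measure hcard (sigma_form n),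
    fun γ h => Pool.Agent.Q168.SQ.isGLB hcard (sigma_form n) h⟩

end Pool.Agent.Results.MP_7519fb_mp.Continuity
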